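import Mathlib
import Pool.Agent.H63.OB.Defs

set_option autoImplicit false

namespace PoolH34OC

open Pool.Agent.H63.OB

/-- `P` is an odd cover of `[n]^d` by odd proper boxes: every side of every member has odd size
and is not the whole of `[n]`, and every point of `[n]^d` lies in an odd number of members. -/
def IsOddCover {n d : ℕ} (P : Finset (Box n d)) : Prop :=
  (∀ b ∈ P, ∀ i, Odd (b i).card ∧ b i ≠ Finset.univ) ∧
    ∀ x : Fin d → Fin n, Odd (P.filter (fun b => ∀ i, x i ∈ b i)).card

/-- The least size of an odd cover of `[n]^d` by odd proper boxes. -/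
noncomputable def oddCoverNumber (n d : ℕ) : ℕ :=
  sInf {m : ℕ | ∃ P : Finset (Box n d), IsOddCover P ∧ P.card = m}

end PoolH34OC
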