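import Mathlib
import Pool.Agent.H34.OC.Defs

set_option autoImplicit false

namespace PoolH34OC

open Finset Pool.Agent.H63.OB

/-- The functionals `l_y` on `F_2 ^ (d+1)`: coordinates, then their sum, then zero. -/
def fn (d : ℕ) (v : Fin (d + 1) → ZMod 2) (y : ℕ) : ZMod 2 :=
  if h : y < d + 1 then v ⟨y, h⟩ else if y = d + 1 then ∑ k, v k else 0

theorem fn_add (d : ℕ) (v w : Fin (d + 1) → ZMod 2) (y : ℕ) :
    fn d (v + w) y = fn d v y + fn d w y := by
  unfold fn
  split_ifs with h1 h2
  · rfl
  · simp [Finset.sum_add_distrib]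
  · simp

theorem fn_smul (d : ℕ) (a : ZMod 2) (v : Fin (d + 1) → ZMod 2) (y : ℕ) :
    fn d (a • v) y = a * fn d v y := by
  unfold fn
  split_ifs with h1 h2
  · rfl
  · simp [Finset.mul_sum]
  · simp

/-- the linear map of all conditions at `x` -/
def phi {n d : ℕ} (x : Fin d → Fin n) : (Fin (d + 1) → ZMod 2) →ₗ[ZMod 2] (Fin d → ZMod 2) where
  toFun v i := fn d v (x i)
  map_add' v w := by ext i; exact fn_add d v w _
  map_smul' a v := by ext i; exact fn_smul d a v _

theorem even_ker {n d : ℕ} (x : Fin d → Fin n) :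
    Even ((univ : Finset (Fin (d + 1) → ZMod 2)).filter (fun v => ∀ i, fn d v (x i) = 0)).card := by
  have hne : LinearMap.ker (phi x) ≠ ⊥ := by
    apply LinearMap.ker_ne_bot_of_finrank_lt
    simp
  obtain ⟨v0, hv0, hv0n⟩ := Submodule.exists_mem_ne_zero_of_ne_bot hne
  have h0 : ∀ i, fn d v0 (x i) = 0 := by
    intro i
    have := congrFun (LinearMap.mem_ker.1 hv0) i
    exact this
  have hs : ∀ v : Fin (d + 1) → ZMod 2, v + v0 + v0 = v := by
    intro v
    rw [add_assoc]
    have : v0 + v0 = 0 := by
      ext k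
      simp [CharTwo.add_self_eq_zero]
    rw [this, add_zero]
  have key : ∑ _v ∈ (univ : Finset (Fin (d + 1) → ZMod 2)).filter (fun v => ∀ i, fn d v (x i) = 0),
      (1 : ZMod 2) = 0 := by
    refine Finset.sum_involution (fun v _ => v + v0) ?_ ?_ ?_ ?_
    · intro a _
      decide
    · intro a _ _ h
      apply hv0n
      have : a + v0 = a + 0 := by rw [add_zero]; exact h
      exact add_left_cancel this
    · intro a ha
      rw [mem_filter] at ha ⊢
      refine ⟨mem_univ _, fun i => ?_⟩
      rw [fn_add, ha.2 i, h0 i, add_zero]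
    · intro a _
      exact hs a
  rw [Finset.sum_const, nsmul_eq_mul, mul_one] at key
  exact (ZMod.natCast_eq_zero_iff_even).1 key

/-- the side attached to `v` -/
def side (n d : ℕ) (v : Fin (d + 1) → ZMod 2) : Finset (Fin n) :=
  univ.filter (fun y : Fin n => fn d v y = 0)

theorem fn_coord (d : ℕ) (v : Fin (d + 1) → ZMod 2) (k : Fin (d + 1)) : fn d v k = v k := by
  unfold fn
  rw [dif_pos k.2]

theorem fn_sum {n d : ℕ} (h : d + 2 ≤ n) (v : Fin (d + 1) → ZMod 2) :
    ∑ y : Fin n, fn d v y = 0 := by
  rw [Fin.sum_univ_eq_sum_range (fun y => fn d v y) n]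
  obtain ⟨r, rfl⟩ := Nat.exists_eq_add_of_le h
  rw [Finset.sum_range_add]
  have h1 : ∑ y ∈ range r, fn d v (d + 2 + y) = 0 := by
    apply Finset.sum_eq_zero
    intro y _
    unfold fn
    rw [dif_neg (by omega), if_neg (by omega)]
  rw [h1, add_zero, Finset.sum_range_succ, Finset.sum_range]
  have h2 : fn d v (d + 1) = ∑ k, v k := by
    unfold fn
    rw [dif_neg (by omega), if_pos rfl]
  rw [h2]
  simp only [fn_coord]
  exact CharTwo.add_self_eq_zero _

theorem side_odd {n d : ℕ} (hn : Odd n) (h : d + 2 ≤ n) (v : Fin (d + 1) → ZMod 2) :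
    Odd (side n d v).card := by
  have h1 : (((univ : Finset (Fin n)).filter (fun y : Fin n => ¬ fn d v y = 0)).card : ZMod 2) = 0 := by
    have e : (((univ : Finset (Fin n)).filter (fun y : Fin n => ¬ fn d v y = 0)).card : ZMod 2) =
        ∑ y : Fin n, fn d v y := by
      rw [Finset.card_filter]
      push_cast
      apply Finset.sum_congr rfl
      intro y _
      have : ∀ a : ZMod 2, (if ¬ a = 0 then (1 : ZMod 2) else 0) = a := by decide
      exact this _
    rw [e]
    exact fn_sum h v
  have h2 : Even ((univ : Finset (Fin n)).filter (fun y : Fin n => ¬ fn d v y = 0)).card :=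
    (ZMod.natCast_eq_zero_iff_even).1 h1
  have h3 := Finset.card_filter_add_card_filter_not (s := (univ : Finset (Fin n)))
    (fun y : Fin n => fn d v y = 0)
  rw [Finset.card_univ, Fintype.card_fin] at h3
  unfold side
  rw [← h3] at hn
  rcases Nat.even_or_odd ((univ : Finset (Fin n)).filter (fun y : Fin n => fn d v y = 0)).card with h4 | h4
  · exact absurd (h4.add h2) (Nat.not_even_iff_odd.2 hn)
  · exact h4

theorem side_proper {n d : ℕ} (h : d + 2 ≤ n) (v : Fin (d + 1) → ZMod 2) (hv : v ≠ 0) :
    side n d v ≠ univ := by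
  intro hu
  apply hv
  ext k
  have : (⟨k.val, by omega⟩ : Fin n) ∈ side n d v := by rw [hu]; exact mem_univ _
  rw [side, mem_filter] at this
  have h2 := this.2
  rw [← fn_coord d v k]
  exact h2

theorem side_inj {n d : ℕ} (h : d + 2 ≤ n) : Function.Injective (side n d) := by
  intro v w hvw
  ext k
  have e : (⟨k.val, by omega⟩ : Fin n) ∈ side n d v ↔ (⟨k.val, by omega⟩ : Fin n) ∈ side n d w := by
    rw [hvw]
  simp only [side, mem_filter, mem_univ, true_and] at e
  have e1 : fn d v k.val = v k := fn_coord d v k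
  have e2 : fn d w k.val = w k := fn_coord d w k
  rw [e1, e2] at e
  have : ∀ a b : ZMod 2, (a = 0 ↔ b = 0) → a = b := by decide
  exact this _ _ e

/-- The optimal odd cover of `[n]^d` for `d + 2 ≤ n`. -/
theorem base {n d : ℕ} (hn : Odd n) (h : d + 2 ≤ n) :
    ∃ P : Finset (Box n d), IsOddCover P ∧ P.card = 2 ^ (d + 1) - 1 := by
  classical
  rcases Nat.eq_zero_or_pos d with rfl | hd
  · refine ⟨univ, ⟨fun b _ i => i.elim0, fun x => ?_⟩, ?_⟩
    · have : ((univ : Finset (Box n 0)).filter (fun b => ∀ i, x i ∈ b i)) = univ := by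
        apply Finset.filter_true_of_mem
        intro b _ i
        exact i.elim0
      rw [this]
      simp
    · simp
  · have hinj : Function.Injective (fun v : Fin (d + 1) → ZMod 2 => (fun _ : Fin d => side n d v)) := by
      intro v w hvw
      exact side_inj h (congrFun hvw ⟨0, hd⟩)
    refine ⟨((univ : Finset (Fin (d + 1) → ZMod 2)).erase 0).image (fun v => (fun _ : Fin d => side n d v)),
      ⟨?_, ?_⟩, ?_⟩
    · intro b hb i
      rw [mem_image] at hb
      obtain ⟨v, hv, rfl⟩ := hb
      exact ⟨side_odd hn h v, side_proper h v (Finset.ne_of_mem_erase hv)⟩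
    · intro x
      rw [Finset.filter_image, Finset.card_image_of_injective _ hinj]
      have e : ((univ : Finset (Fin (d + 1) → ZMod 2)).erase 0).filter
          (fun v => ∀ i, x i ∈ side n d v) =
          ((univ : Finset (Fin (d + 1) → ZMod 2)).filter (fun v => ∀ i, fn d v (x i) = 0)).erase 0 := by
        ext v
        simp only [mem_filter, mem_erase, mem_univ, side, true_and, and_true]
      rw [e, Finset.card_erase_of_mem]
      · have hev := even_ker x
        have hpos : 0 < ((univ : Finset (Fin (d + 1) → ZMod 2)).filter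
            (fun v => ∀ i, fn d v (x i) = 0)).card := by
          rw [Finset.card_pos]
          refine ⟨0, ?_⟩
          rw [mem_filter]
          refine ⟨mem_univ _, fun i => ?_⟩
          exact congrFun (map_zero (phi x)) i
        obtain ⟨m, hm⟩ := hev
        refine ⟨m - 1, ?_⟩
        omega
      · rw [mem_filter]
        refine ⟨mem_univ _, fun i => ?_⟩
        exact congrFun (map_zero (phi x)) i
    · rw [Finset.card_image_of_injective _ hinj, Finset.card_erase_of_mem (mem_univ _),
        Finset.card_univ]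
      simp

end PoolH34OC
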