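import Mathlib
import Pool.Agent.H34.OC.Base
import Pool.Agent.H63.OB.Xor

set_option autoImplicit false

namespace PoolH34OC

open Finset Pool.Agent.H63.OB

theorem lower {n d : ℕ} (hn : Odd n) (P : Finset (Box n d)) (hP : IsOddCover P) :
    2 ^ (d + 1) ≤ P.card + 1 := by
  classical
  apply xor_cover hn d P (fun b => b)
  · intro b hb i
    exact hP.1 b hb i
  · intro x
    have h := hP.2 x
    unfold cnt
    convert h

/-- product of two odd covers -/
theorem prod_cover {n a b : ℕ} (P : Finset (Box n a)) (Q : Finset (Box n b)) (hP : IsOddCover P)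
    (hQ : IsOddCover Q) : ∃ R : Finset (Box n (a + b)), IsOddCover R ∧ R.card = P.card * Q.card := by
  classical
  have hinj : Function.Injective (fun pq : Box n a × Box n b =>
      (Fin.append pq.1 pq.2 : Box n (a + b))) := by
    rintro ⟨p, q⟩ ⟨p', q'⟩ h
    have h' : Fin.append p q = Fin.append p' q' := h
    have h1 : p = p' := by
      ext1 i
      have := congrFun h' (Fin.castAdd b i)
      simpa using this
    have h2 : q = q' := by
      ext1 i
      have := congrFun h' (Fin.natAdd a i)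
      simpa using this
    rw [h1, h2]
  refine ⟨(P ×ˢ Q).image (fun pq => (Fin.append pq.1 pq.2 : Box n (a + b))), ⟨?_, ?_⟩, ?_⟩
  · intro c hc i
    rw [mem_image] at hc
    obtain ⟨⟨p, q⟩, hpq, rfl⟩ := hc
    rw [mem_product] at hpq
    refine Fin.addCases (fun j => ?_) (fun j => ?_) i
    · simpa using hP.1 p hpq.1 j
    · simpa using hQ.1 q hpq.2 j
  · intro x
    rw [Finset.filter_image, Finset.card_image_of_injective _ hinj]
    have e : (P ×ˢ Q).filter (fun pq => ∀ i, x i ∈ (Fin.append pq.1 pq.2 : Box n (a + b)) i) =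
        (P.filter (fun p => ∀ i, x (Fin.castAdd b i) ∈ p i)) ×ˢ
          (Q.filter (fun q => ∀ i, x (Fin.natAdd a i) ∈ q i)) := by
      ext ⟨p, q⟩
      simp only [mem_filter, mem_product]
      constructor
      · rintro ⟨⟨hp, hq⟩, h⟩
        refine ⟨⟨hp, fun i => ?_⟩, ⟨hq, fun i => ?_⟩⟩
        · simpa using h (Fin.castAdd b i)
        · simpa using h (Fin.natAdd a i)
      · rintro ⟨⟨hp, h1⟩, ⟨hq, h2⟩⟩
        refine ⟨⟨hp, hq⟩, fun i => ?_⟩
        refine Fin.addCases (fun j => ?_) (fun j => ?_) i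
        · simpa using h1 j
        · simpa using h2 j
    rw [e, card_product]
    exact (hP.2 _).mul (hQ.2 _)
  · rw [Finset.card_image_of_injective _ hinj, card_product]

theorem upper {n : ℕ} (hn : Odd n) (h3 : 3 ≤ n) (k : ℕ) : ∀ d, d ≤ (k + 1) * (n - 2) →
    ∃ P : Finset (Box n d), IsOddCover P ∧ P.card ≤ 2 ^ (d + (k + 1)) - 1 := by
  induction k with
  | zero =>
    intro d hd
    obtain ⟨P, h1, h2⟩ := base (d := d) hn (by omega)
    exact ⟨P, h1, le_of_eq h2⟩
  | succ k ih =>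
    intro d hd
    obtain ⟨a, b, rfl, ha, hb⟩ : ∃ a b, d = a + b ∧ a ≤ n - 2 ∧ b ≤ (k + 1) * (n - 2) := by
      rcases le_total d (n - 2) with h | h
      · exact ⟨d, 0, rfl, h, Nat.zero_le _⟩
      · refine ⟨n - 2, d - (n - 2), by omega, le_refl _, ?_⟩
        have : (k + 1 + 1) * (n - 2) = (k + 1) * (n - 2) + (n - 2) := by ring
        omega
    obtain ⟨P, hP, hPc⟩ := base (d := a) hn (by omega)
    obtain ⟨Q, hQ, hQc⟩ := ih b hb
    obtain ⟨R, hR, hRc⟩ := prod_cover P Q hP hQ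
    refine ⟨R, hR, ?_⟩
    rw [hRc, hPc]
    have p1 : 1 ≤ 2 ^ (a + 1) := Nat.one_le_two_pow
    have p2 : 1 ≤ 2 ^ (b + (k + 1)) := Nat.one_le_two_pow
    have e : 2 ^ (a + b + (k + 1 + 1)) = 2 ^ (a + 1) * 2 ^ (b + (k + 1)) := by
      rw [← pow_add]; congr 1; omega
    rw [e]
    calc (2 ^ (a + 1) - 1) * Q.card ≤ (2 ^ (a + 1) - 1) * (2 ^ (b + (k + 1)) - 1) :=
          Nat.mul_le_mul_left _ hQc
      _ ≤ 2 ^ (a + 1) * 2 ^ (b + (k + 1)) - 1 := by
          obtain ⟨u, hu⟩ := Nat.exists_eq_add_of_le p1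
          obtain ⟨w, hw⟩ := Nat.exists_eq_add_of_le p2
          rw [hu, hw]
          have : 1 + u - 1 = u := by omega
          have h2 : 1 + w - 1 = w := by omega
          rw [this, h2]
          have : (1 + u) * (1 + w) = u * w + u + w + 1 := by ring
          rw [this]
          omega

theorem main {n d : ℕ} (hn : Odd n) (h3 : 3 ≤ n) :
    2 ^ (d + 1) - 1 ≤ oddCoverNumber n d ∧
      ∀ k, d ≤ (k + 1) * (n - 2) → oddCoverNumber n d ≤ 2 ^ (d + (k + 1)) - 1 := by
  refine ⟨?_, ?_⟩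
  · have hne : {m : ℕ | ∃ P : Finset (Box n d), IsOddCover P ∧ P.card = m}.Nonempty := by
      obtain ⟨P, h1, _⟩ := upper hn h3 d d (by
        have : 1 ≤ n - 2 := by omega
        nlinarith)
      exact ⟨_, P, h1, rfl⟩
    obtain ⟨P, hP, hc⟩ := Nat.sInf_mem hne
    unfold oddCoverNumber
    rw [← hc]
    have := lower hn P hP
    omega
  · intro k hk
    obtain ⟨P, h1, h2⟩ := upper hn h3 k d hk
    exact le_trans (Nat.sInf_le ⟨P, h1, rfl⟩) h2

end PoolH34OC
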